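import Mathlib
import Pool.Agent.H883R3.Filt.Stmts
import Pool.Agent.H883R3.Filt.Basic

open Set Cardinal Filter

namespace H883F

universe u

theorem t9b : T9b.{u} := by
  intro Ω _ F P hPinf hPlt hF
  have hPF : P ∈ F := by
    rw [hF, sdiff_self]
    change #↥(∅ : Set Ω) < #↥P
    rw [Cardinal.mk_emptyCollection]
    have : ℵ₀ ≤ #↥P := by
      rw [Cardinal.aleph0_le_mk_iff]
      exact hPinf.to_subtype
    exact lt_of_lt_of_le Cardinal.aleph0_pos this
  refine ⟨?_, ?_⟩
  · intro Q hQ
    refine ⟨P, hPF, ?_⟩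
    apply le_antisymm (Cardinal.mk_set_le _)
    by_contra hcon
    rw [not_le] at hcon
    have h1 : #↥Q ≤ #↥(Q \ P) + #↥P := by
      have : Q ⊆ (Q \ P) ∪ P := by
        intro x hx
        by_cases hxP : x ∈ P
        · exact Or.inr hxP
        · exact Or.inl ⟨hx, hxP⟩
      exact le_trans (Cardinal.mk_le_mk_of_subset this) (Cardinal.mk_union_le _ _)
    have h2 : #↥(Q \ P) + #↥P < #Ω :=
      Cardinal.add_lt_of_lt (Cardinal.aleph0_le_mk Ω) hcon hPlt
    rw [hQ] at h1
    exact absurd (lt_of_le_of_lt h1 h2) (lt_irrefl _)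
  · intro G hG hGF hst
    apply le_antisymm hGF
    intro S hS
    by_contra hSF
    have hPS : #↥(P \ S) = #↥P := by
      apply le_antisymm (Cardinal.mk_le_mk_of_subset Set.sdiff_subset)
      by_contra hcon
      rw [not_le] at hcon
      exact hSF ((hF S).2 hcon)
    have hle : #↥(S ∩ P) ≤ #↥(P \ S) := by
      rw [hPS]
      exact Cardinal.mk_le_mk_of_subset Set.inter_subset_right
    obtain ⟨q, hq, hqS⟩ := exists_injOn hle
    have hd : Disjoint (S ∩ P) (q '' (S ∩ P)) := by
      rw [Set.disjoint_left]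
      intro x hx hx'
      exact (hqS hx').2 hx.1
    obtain ⟨g, g1, g2, g3⟩ := exists_swap _ q hq hd
    have hgP : ∀ x, x ∉ P → g x = x := by
      intro x hx
      apply g3
      · intro h
        exact hx h.2
      · intro h
        exact hx (hqS h).1
    have hginv : ∀ x, g (g x) = x := by
      intro x
      by_cases h1 : x ∈ S ∩ P
      · rw [g1 x h1, g2 x h1]
      · by_cases h2 : x ∈ q '' (S ∩ P)
        · obtain ⟨y, hy, rfl⟩ := h2
          rw [g2 y hy, g1 y hy]
        · rw [g3 x h1 h2, g3 x h1 h2]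
    have hgPP : ∀ x, g x ∈ P ↔ x ∈ P := by
      intro x
      constructor
      · intro h
        by_contra hx
        rw [hgP x hx] at h
        exact hx h
      · intro h
        by_contra hx
        have h2 := hgP _ hx
        rw [hginv x] at h2
        rw [← h2] at hx
        exact hx h
    have hgF : g ∈ stab F := by
      apply mem_stab_of_invol hginv
      intro D hD
      rw [hF] at hD ⊢
      have heq : P \ (g ⁻¹' D) = g '' (P \ D) := by
        ext x
        constructor
        · rintro ⟨h1, h2⟩
          exact ⟨g x, ⟨(hgPP x).2 h1, h2⟩, hginv x⟩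
        · rintro ⟨y, ⟨h1, h2⟩, rfl⟩
          refine ⟨(hgPP y).2 h1, ?_⟩
          intro h3
          apply h2
          have h4 : g (g y) ∈ D := h3
          rwa [hginv y] at h4
      rw [heq, Cardinal.mk_image_eq g.injective]
      exact hD
    have hgG := hst hgF
    have hSP : S ∩ P ∈ G := inter_mem hS (hGF hPF)
    have him : g '' (S ∩ P) ∈ G := (image_mem_of_stab hgG).2 hSP
    have hint := inter_mem him hS
    have hemp : g '' (S ∩ P) ∩ S = ∅ := by
      ext x
      constructor
      · rintro ⟨⟨y, hy, rfl⟩, hx⟩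
        rw [g1 y hy] at hx
        exact ((hqS ⟨y, hy, rfl⟩).2 hx).elim
      · intro h
        exact h.elim
    rw [hemp] at hint
    exact hG.ne (Filter.empty_mem_iff_bot.1 hint)

end H883F
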